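import Pool.Agent.H24.CL.Targets

/-!
Row JO: Johnson's bound for the second digit.
-/

set_option autoImplicit false

open Finset

namespace Pool.Agent.H42.CLV

open Pool.Agent.H24.CL

theorem natCast_ne_zero_of_lt {q m : ℕ} (h0 : 0 < m) (h : m < q) : ((m : ℕ) : ZMod q) ≠ 0 := by
  intro h1
  rw [ZMod.natCast_eq_zero_iff] at h1
  exact absurd (Nat.le_of_dvd h0 h1) (by omega)

theorem zv_card_le {q : ℕ} [Fact q.Prime] (hq : 3 < q) (d : V3 q) (hd : d ≠ 0)
    (B : Finset (ZMod q)) (hB : ∀ b ∈ B, Zv d b = 0) : B.card ≤ 2 := by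
  classical
  set p : Polynomial (ZMod q) := Polynomial.C (d 0) + Polynomial.C (2 * d 1) * Polynomial.X +
    Polynomial.C (3 * d 2) * Polynomial.X ^ 2 with hp
  have hdeg : p.natDegree ≤ 2 := by
    rw [hp]
    compute_degree
  have hp0 : p ≠ 0 := by
    intro h
    apply hd
    have c0 : p.coeff 0 = 0 := by rw [h]; simp
    have c1 : p.coeff 1 = 0 := by rw [h]; simp
    have c2 : p.coeff 2 = 0 := by rw [h]; simp
    have e0 : p.coeff 0 = d 0 := by
      rw [hp]
      simp [Polynomial.coeff_X_zero, Polynomial.coeff_C]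
    have e1 : p.coeff 1 = 2 * d 1 := by
      rw [hp]
      simp [Polynomial.coeff_C, Polynomial.coeff_X_pow, -map_mul]
    have e2 : p.coeff 2 = 3 * d 2 := by
      rw [hp]
      simp [Polynomial.coeff_X_pow, -map_mul]
    have h2 : (2 : ZMod q) ≠ 0 := by
      have := natCast_ne_zero_of_lt (q := q) (m := 2) (by norm_num) (by omega)
      simpa using this
    have h3 : (3 : ZMod q) ≠ 0 := by
      have := natCast_ne_zero_of_lt (q := q) (m := 3) (by norm_num) (by omega)
      simpa using this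
    rw [e0] at c0
    rw [e1] at c1
    rw [e2] at c2
    have g1 : d 1 = 0 := (mul_eq_zero.mp c1).resolve_left h2
    have g2 : d 2 = 0 := (mul_eq_zero.mp c2).resolve_left h3
    funext i
    fin_cases i
    · exact c0
    · exact g1
    · exact g2
  refine le_trans (Polynomial.card_le_degree_of_subset_roots (p := p) (Z := B) ?_) hdeg
  intro b hb
  rw [Polynomial.mem_roots hp0, Polynomial.IsRoot.def]
  have := hB b hb
  unfold Zv at this
  rw [hp]
  simp only [Polynomial.eval_add, Polynomial.eval_mul, Polynomial.eval_C, Polynomial.eval_X,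
    Polynomial.eval_pow]
  rw [← this]
  ring

theorem zv_sub {q : ℕ} (w w' : V3 q) (b : ZMod q) : Zv (w - w') b = Zv w b - Zv w' b := by
  unfold Zv
  simp only [Pi.sub_apply]
  ring

theorem pf_JO : T_JO := by
  classical
  intro q _ hq A0 A1 kap n F E R S hO hE w3 Y hY
  have key : ∀ w2 ∈ Y, ∃ D : Finset (ZMod q), n ≤ (D.card : ℝ) ∧
      ∀ b ∈ D, (Zv w3 b, Zw w3 b, Zv w2 b + kap b w3) ∈ A1 b := by
    intro w2 hw2
    obtain ⟨w1, hw1⟩ := hY w2 hw2
    exact hO.h0 _ hw1
  choose! D hD1 hD2 using key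
  set Pf : Finset (ZMod q × ZMod q) :=
    univ.filter (fun p => (Zv w3 p.1, Zw w3 p.1, p.2) ∈ A1 p.1) with hPf
  have hn0 : 0 < n := lt_of_lt_of_le one_pos hO.hn
  have hPS : (Pf.card : ℝ) = ∑ b : ZMod q,
      (((univ : Finset (ZMod q)).filter fun t => (Zv w3 b, Zw w3 b, t) ∈ A1 b).card : ℝ) := by
    rw [hPf, Finset.card_filter, ← Finset.univ_product_univ, Finset.sum_product]
    push_cast
    refine Finset.sum_congr rfl fun b _ => ?_
    rw [Finset.card_filter]
    push_cast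
    rfl
  rw [← hPS]
  set f : V3 q → ZMod q × ZMod q → ℝ := fun w p =>
    if p.1 ∈ D w ∧ Zv w p.1 + kap p.1 w3 = p.2 then 1 else 0 with hf
  have hI : ∀ w ∈ Y, ∑ p ∈ Pf, f w p = ((D w).card : ℝ) := by
    intro w hw
    rw [hf]
    simp only
    rw [Finset.sum_boole]
    congr 1
    symm
    apply Finset.card_bij (fun b _ => (b, Zv w b + kap b w3))
    · intro b hb
      rw [Finset.mem_filter, hPf, Finset.mem_filter]
      exact ⟨⟨Finset.mem_univ _, hD2 w hw b hb⟩, hb, rfl⟩
    · intro b _ b' _ h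
      exact (Prod.ext_iff.mp h).1
    · intro p hp
      rw [Finset.mem_filter] at hp
      exact ⟨p.1, hp.2.1, Prod.ext rfl hp.2.2⟩
  have hff : ∀ w ∈ Y, ∀ w' ∈ Y, ∑ p ∈ Pf, f w p * f w' p ≤
      (if w = w' then ((D w).card : ℝ) else 0) + 2 := by
    intro w hw w' hw'
    by_cases h : w = w'
    · rw [if_pos h, ← h]
      have : ∑ p ∈ Pf, f w p * f w p = ∑ p ∈ Pf, f w p := by
        refine Finset.sum_congr rfl fun p _ => ?_
        rw [hf]
        simp only
        split_ifs <;> norm_num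
      rw [this, hI w hw]
      linarith
    · rw [if_neg h, zero_add]
      set B : Finset (ZMod q) := univ.filter (fun b => Zv (w - w') b = 0) with hB
      have h2 : B.card ≤ 2 := by
        apply zv_card_le hq (w - w') (sub_ne_zero.mpr h) B
        intro b hb
        rw [hB, Finset.mem_filter] at hb
        exact hb.2
      have h3 : ∑ p ∈ Pf, f w p * f w' p ≤ (B.card : ℝ) := by
        have e1 : ∀ p ∈ Pf, f w p * f w' p =
            if (p.1 ∈ D w ∧ Zv w p.1 + kap p.1 w3 = p.2) ∧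
              (p.1 ∈ D w' ∧ Zv w' p.1 + kap p.1 w3 = p.2) then 1 else 0 := by
          intro p _
          rw [hf]
          simp only
          by_cases g1 : p.1 ∈ D w ∧ Zv w p.1 + kap p.1 w3 = p.2
          · by_cases g2 : p.1 ∈ D w' ∧ Zv w' p.1 + kap p.1 w3 = p.2
            · rw [if_pos g1, if_pos g2, if_pos ⟨g1, g2⟩, mul_one]
            · have g3 : ¬ ((p.1 ∈ D w ∧ Zv w p.1 + kap p.1 w3 = p.2) ∧
                  (p.1 ∈ D w' ∧ Zv w' p.1 + kap p.1 w3 = p.2)) := fun h => g2 h.2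
              rw [if_neg g2, if_neg g3, mul_zero]
          · have g3 : ¬ ((p.1 ∈ D w ∧ Zv w p.1 + kap p.1 w3 = p.2) ∧
                  (p.1 ∈ D w' ∧ Zv w' p.1 + kap p.1 w3 = p.2)) := fun h => g1 h.1
            rw [if_neg g1, if_neg g3, zero_mul]
        rw [Finset.sum_congr rfl e1, Finset.sum_boole]
        have : ((Pf.filter fun p => (p.1 ∈ D w ∧ Zv w p.1 + kap p.1 w3 = p.2) ∧
              (p.1 ∈ D w' ∧ Zv w' p.1 + kap p.1 w3 = p.2)).card) ≤ B.card := by
          apply Finset.card_le_card_of_injOn (fun p => p.1)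
          · intro p hp
            have hp' := (Finset.mem_filter.mp hp).2
            show p.1 ∈ B
            rw [hB, Finset.mem_filter]
            refine ⟨Finset.mem_univ _, ?_⟩
            rw [zv_sub]
            have := hp'.1.2.trans hp'.2.2.symm
            exact sub_eq_zero.mpr (add_right_cancel this)
          · intro p hp p' hp' h
            have g1 := (Finset.mem_filter.mp hp).2
            have g2 := (Finset.mem_filter.mp hp').2
            simp only at h
            apply Prod.ext h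
            rw [← g1.1.2, ← g2.1.2, h]
        exact_mod_cast this
      have h4 : (B.card : ℝ) ≤ 2 := by exact_mod_cast h2
      linarith
  set m : ZMod q × ZMod q → ℝ := fun p => ∑ w ∈ Y, f w p with hm
  set I : ℝ := ∑ w ∈ Y, ((D w).card : ℝ) with hIdef
  have hmI : ∑ p ∈ Pf, m p = I := by
    rw [hm]
    simp only
    rw [Finset.sum_comm, hIdef]
    exact Finset.sum_congr rfl hI
  have hm2 : ∑ p ∈ Pf, m p ^ 2 ≤ I + 2 * (Y.card : ℝ) ^ 2 := by
    have e1 : ∀ p ∈ Pf, m p ^ 2 = ∑ w ∈ Y, ∑ w' ∈ Y, f w p * f w' p := by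
      intro p _
      rw [hm]
      simp only
      rw [sq, Finset.sum_mul_sum]
    rw [Finset.sum_congr rfl e1, Finset.sum_comm]
    have e2 : ∀ w ∈ Y, ∑ p ∈ Pf, ∑ w' ∈ Y, f w p * f w' p ≤
        ((D w).card : ℝ) + 2 * (Y.card : ℝ) := by
      intro w hw
      rw [Finset.sum_comm]
      calc ∑ w' ∈ Y, ∑ p ∈ Pf, f w p * f w' p
          ≤ ∑ w' ∈ Y, ((if w = w' then ((D w).card : ℝ) else 0) + 2) :=
            Finset.sum_le_sum fun w' hw' => hff w hw w' hw'
        _ = ((D w).card : ℝ) + 2 * (Y.card : ℝ) := by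
            rw [Finset.sum_add_distrib, Finset.sum_ite_eq, if_pos hw, Finset.sum_const,
              nsmul_eq_mul]
            ring
    calc ∑ w ∈ Y, ∑ p ∈ Pf, ∑ w' ∈ Y, f w p * f w' p
        ≤ ∑ w ∈ Y, (((D w).card : ℝ) + 2 * (Y.card : ℝ)) := Finset.sum_le_sum e2
      _ = I + 2 * (Y.card : ℝ) ^ 2 := by
          rw [Finset.sum_add_distrib, Finset.sum_const, nsmul_eq_mul, hIdef]
          ring
  have hCS : I ^ 2 ≤ (Pf.card : ℝ) * (I + 2 * (Y.card : ℝ) ^ 2) := by
    have h1 := sq_sum_le_card_mul_sum_sq (s := Pf) (f := m)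
    rw [hmI] at h1
    refine le_trans h1 ?_
    exact mul_le_mul_of_nonneg_left hm2 (Nat.cast_nonneg _)
  have hnY : n * (Y.card : ℝ) ≤ I := by
    rw [hIdef]
    calc n * (Y.card : ℝ) = ∑ _w ∈ Y, n := by rw [Finset.sum_const, nsmul_eq_mul, mul_comm]
      _ ≤ ∑ w ∈ Y, ((D w).card : ℝ) := Finset.sum_le_sum fun w hw => hD1 w hw
  have hPE : (Pf.card : ℝ) ≤ q * E := by
    rw [hPS]
    calc ∑ b : ZMod q,
          (((univ : Finset (ZMod q)).filter fun t => (Zv w3 b, Zw w3 b, t) ∈ A1 b).card : ℝ)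
        ≤ ∑ _b : ZMod q, E := by
          refine Finset.sum_le_sum fun b _ => ?_
          apply hO.h2 b (Zv w3 b) (Zw w3 b)
          intro t ht
          exact (Finset.mem_filter.mp ht).2
      _ = q * E := by
          rw [Finset.sum_const, nsmul_eq_mul, Finset.card_univ, ZMod.card]
  have hP0 : (0 : ℝ) ≤ Pf.card := Nat.cast_nonneg _
  have hI0 : 0 ≤ I := by
    rw [hIdef]
    exact Finset.sum_nonneg fun _ _ => Nat.cast_nonneg _
  have hY0 : (0 : ℝ) ≤ Y.card := Nat.cast_nonneg _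
  clear_value I
  -- `2 |Pf| |Y|² ≤ I²/8`
  have h1 : 16 * ((Pf.card : ℝ) * (Y.card : ℝ) ^ 2) ≤ I ^ 2 := by
    have a1 : 16 * (Pf.card : ℝ) ≤ n ^ 2 := by linarith
    have a2 : (n * (Y.card : ℝ)) ^ 2 ≤ I ^ 2 := by
      have : 0 ≤ n * (Y.card : ℝ) := by positivity
      exact pow_le_pow_left₀ this hnY 2
    have a3 : 16 * (Pf.card : ℝ) * (Y.card : ℝ) ^ 2 ≤ n ^ 2 * (Y.card : ℝ) ^ 2 :=
      mul_le_mul_of_nonneg_right a1 (by positivity)
    calc 16 * ((Pf.card : ℝ) * (Y.card : ℝ) ^ 2) = 16 * (Pf.card : ℝ) * (Y.card : ℝ) ^ 2 := by ring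
      _ ≤ n ^ 2 * (Y.card : ℝ) ^ 2 := a3
      _ = (n * (Y.card : ℝ)) ^ 2 := by ring
      _ ≤ I ^ 2 := a2
  refine le_trans hnY ?_
  generalize (Pf.card : ℝ) = P at hCS hP0 h1 ⊢
  generalize (Y.card : ℝ) = y at hCS h1 hY0
  by_contra hcon
  push Not at hcon
  have hIpos : 0 < I := by linarith
  have h2 : P * (I + 2 * y ^ 2) = P * I + 2 * (P * y ^ 2) := by ring
  have h3 : I ^ 2 ≤ P * I + I ^ 2 / 8 := by linarith
  have h4 : P * I < I / 2 * I := by
    apply mul_lt_mul_of_pos_right _ hIpos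
    linarith
  nlinarith

end Pool.Agent.H42.CLV
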