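import Pool.Agent.H24.CL.Targets

/-!
Row ST: the three step inequalities in the torus.
-/

set_option autoImplicit false

open Finset MeasureTheory

namespace Pool.Agent.H42.CLV

open Pool.Agent.H24.CL

theorem sum_val_range {q : ℕ} [NeZero q] (F : ℕ → ℝ) :
    ∑ b : ZMod q, F b.val = ∑ b ∈ range q, F b :=
  Finset.sum_bij (fun b _ => b.val) (fun b _ => mem_range.mpr (ZMod.val_lt b))
    (fun _ _ _ _ h => ZMod.val_injective q h)
    (fun b hb => ⟨(b : ZMod q), mem_univ _, ZMod.val_cast_of_lt (mem_range.mp hb)⟩)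
    (fun _ _ => rfl)

open Classical in
theorem step_torus (hOC : T_OC) (hCI : T_CI) (q : ℕ) [Fact q.Prime] (hq : 3 < q)
    (W₀ W₁ : Set (X 3)) (m₀ : MeasurableSet W₀) (m₁ : MeasurableSet W₁) (C : ℝ) (hC : 0 ≤ C)
    (h : ∀ a, ((A0s q W₀ a).card : ℝ) ≤ C * ∑ b : ZMod q, ((A1s q W₁ a b).card : ℝ)) :
    (q : ℝ) ^ 6 * volume.real W₀ ≤ q * C * volume.real W₁ := by
  obtain ⟨-, h2, h3⟩ := hOC q hq
  have key := hCI 3 q (by omega) (W₀.indicator fun _ => (1 : ℝ)) (W₁.indicator fun _ => C)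
    (max 1 C) (measurable_const.indicator m₀) (measurable_const.indicator m₁) ?_ ?_ ?_
  · rw [integral_indicator_const _ m₀, integral_indicator_const _ m₁] at key
    have hKN : KN 3 = 6 := rfl
    rw [hKN, smul_eq_mul, smul_eq_mul, mul_one] at key
    calc (q : ℝ) ^ 6 * volume.real W₀ ≤ (q : ℝ) * (volume.real W₁ * C) := key
      _ = q * C * volume.real W₁ := by ring
  · intro a
    by_cases ha : a ∈ W₀
    · rw [Set.indicator_of_mem ha]
      exact ⟨by norm_num, le_max_left _ _⟩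
    · rw [Set.indicator_of_notMem ha]
      exact ⟨le_refl _, le_trans (by norm_num) (le_max_left (1 : ℝ) C)⟩
  · intro a
    by_cases ha : a ∈ W₁
    · rw [Set.indicator_of_mem ha]
      exact ⟨hC, le_max_right _ _⟩
    · rw [Set.indicator_of_notMem ha]
      exact ⟨le_refl _, le_trans (by norm_num) (le_max_left (1 : ℝ) C)⟩
  · intro a
    have e1 : ∑ h ∈ HF 3 q 3, W₀.indicator (fun _ => (1 : ℝ)) (a + h) ≤
        ((A0s q W₀ a).card : ℝ) := by
      have e2 : ∑ h ∈ HF 3 q 3, W₀.indicator (fun _ => (1 : ℝ)) (a + h) =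
          (((HF 3 q 3).filter fun h => a + h ∈ W₀).card : ℝ) := by
        rw [Finset.card_filter]
        push_cast
        refine Finset.sum_congr rfl fun h _ => ?_
        rw [Set.indicator_apply]
      rw [e2]
      have e3 := h2 W₀ a ((HF 3 q 3).filter fun h => a + h ∈ W₀) (fun y hy => by
        rw [Finset.mem_filter] at hy
        exact hy)
      exact_mod_cast e3
    have e4 : ∀ b : ZMod q, C * ((A1s q W₁ a b).card : ℝ) ≤
        ∑ v ∈ (HF 3 q 3).image (fun h => phi q b.val (a + h)), W₁.indicator (fun _ => C) v := by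
      intro b
      obtain ⟨Y, hY1, hY2, hY3⟩ := h3 W₁ a b
      calc C * ((A1s q W₁ a b).card : ℝ) ≤ C * (Y.card : ℝ) :=
            mul_le_mul_of_nonneg_left (by exact_mod_cast hY3) hC
        _ = ∑ _v ∈ Y, C := by rw [Finset.sum_const, nsmul_eq_mul, mul_comm]
        _ = ∑ v ∈ Y, W₁.indicator (fun _ => C) v :=
            Finset.sum_congr rfl fun v hv => by rw [Set.indicator_of_mem (hY2 v hv)]
        _ ≤ ∑ v ∈ (HF 3 q 3).image (fun h => phi q b.val (a + h)), W₁.indicator (fun _ => C) v :=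
            Finset.sum_le_sum_of_subset_of_nonneg hY1
              (fun v _ _ => Set.indicator_nonneg (fun _ _ => hC) v)
    calc ∑ h ∈ HF 3 q 3, W₀.indicator (fun _ => (1 : ℝ)) (a + h)
        ≤ ((A0s q W₀ a).card : ℝ) := e1
      _ ≤ C * ∑ b : ZMod q, ((A1s q W₁ a b).card : ℝ) := h a
      _ = ∑ b : ZMod q, C * ((A1s q W₁ a b).card : ℝ) := Finset.mul_sum _ _ _
      _ ≤ ∑ b : ZMod q, ∑ v ∈ (HF 3 q 3).image (fun h => phi q b.val (a + h)),
            W₁.indicator (fun _ => C) v := Finset.sum_le_sum fun b _ => e4 b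
      _ = ∑ b ∈ range q, ∑ v ∈ (HF 3 q 3).image (fun h => phi q b (a + h)),
            W₁.indicator (fun _ => C) v :=
          sum_val_range (q := q) (fun b => ∑ v ∈ (HF 3 q 3).image (fun h => phi q b (a + h)),
            W₁.indicator (fun _ => C) v)

theorem pf_ST (hOS : T_OS) (hOC : T_OC) (hO1 : T_O1) (hO2 : T_O2) (hO3 : T_O3) (hCI : T_CI) :
    T_ST := by
  intro q hp hq W G₀ G₁ G₂ n₀ n₁ m₀ m₁ hG₀ hG₁ hG₂ hn₀ hn₀q hn₁ hn₁q c₀ c₁ l₁ l₂ k₀ k₁
  have : Fact q.Prime := ⟨hp⟩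
  have hO := hOS q hq W G₀ G₁ G₂ n₀ n₁ hG₀ hG₁ hG₂ hn₀ hn₀q hn₁ hn₁q c₀ c₁ l₁ l₂ k₀ k₁
  have hn : 0 < n₀ := lt_of_lt_of_le one_pos hn₀
  have hn' : 0 < n₁ := lt_of_lt_of_le one_pos hn₁
  have hq0 : (0 : ℝ) < q := by exact_mod_cast (by omega : 0 < q)
  have hG0 : 0 < G₀ := lt_of_lt_of_le one_pos hG₀
  have hG1 : 0 < G₁ := lt_of_lt_of_le one_pos hG₁
  have hG2 : 0 < G₂ := lt_of_lt_of_le one_pos hG₂
  have hRe : q * G₂ / n₁ / n₀ = q * G₂ / (n₁ * n₀) := by rw [div_div]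
  set a1 : ℝ := q * min 1 (G₁ / n₀) with ha1
  set a2 : ℝ := q * min 1 (q * G₂ / (n₁ * n₀)) with ha2
  have ha1' : 0 ≤ a1 := by
    rw [ha1]
    exact mul_nonneg hq0.le (le_min zero_le_one (by positivity))
  have ha2' : 0 ≤ a2 := by
    rw [ha2]
    exact mul_nonneg hq0.le (le_min zero_le_one (by positivity))
  have hv : 0 ≤ volume.real (W 1) := measureReal_nonneg
  have hG03 : 0 < G₀ ^ 3 := by positivity
  clear_value a1 a2
  refine ⟨?_, ?_, ?_⟩
  · have s1 := step_torus hOC hCI q hq (W 0) (W 1) m₀ m₁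
      (384 * G₀ ^ 3 * a1 ^ 2 * a2 / n₀) (by positivity) (fun a => by
        have t1 := hO1 q hq _ _ _ _ _ _ _ _ (hO a)
        rw [hRe, ← ha1, ← ha2] at t1
        rw [div_mul_eq_mul_div, le_div_iff₀ hn]
        calc ((A0s q (W 0) a).card : ℝ) * n₀ = n₀ * ((A0s q (W 0) a).card : ℝ) := mul_comm _ _
          _ ≤ _ := t1
          _ = 384 * G₀ ^ 3 * a1 ^ 2 * a2 * ∑ b : ZMod q, ((A1s q (W 1) a b).card : ℝ) := by
              ring)
    refine le_trans s1 ?_
    have : (q : ℝ) * (384 * G₀ ^ 3 * a1 ^ 2 * a2 / n₀) = 384 * (G₀ ^ 3 * a1 ^ 2 * a2 * (q / n₀)) := by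
      ring
    rw [this]
    have h0 : 0 ≤ G₀ ^ 3 * a1 ^ 2 * a2 * (q / n₀) * volume.real (W 1) := by positivity
    nlinarith
  · intro hE
    have s1 := step_torus hOC hCI q hq (W 0) (W 1) m₀ m₁
      (48 * G₀ ^ 3 * a2 / n₀) (by positivity) (fun a => by
        have t1 := hO2 q hq _ _ _ _ _ _ _ _ (hO a) hE
        rw [hRe, ← ha2] at t1
        rw [div_mul_eq_mul_div, le_div_iff₀ hn]
        calc ((A0s q (W 0) a).card : ℝ) * n₀ = n₀ * ((A0s q (W 0) a).card : ℝ) := mul_comm _ _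
          _ ≤ _ := t1
          _ = 48 * G₀ ^ 3 * a2 * ∑ b : ZMod q, ((A1s q (W 1) a b).card : ℝ) := by
              ring)
    refine le_trans s1 ?_
    have : (q : ℝ) * (48 * G₀ ^ 3 * a2 / n₀) = 48 * (G₀ ^ 3 * a2 * (q / n₀)) := by
      ring
    rw [this]
    have h0 : 0 ≤ G₀ ^ 3 * a2 * (q / n₀) * volume.real (W 1) := by positivity
    nlinarith
  · intro hE hS
    have s1 := step_torus hOC hCI q hq (W 0) (W 1) m₀ m₁
      (96 * G₀ ^ 3 * q ^ 2 * G₁ / n₀ ^ 3) (by positivity) (fun a => by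
        have t1 := hO3 q hq _ _ _ _ _ _ _ _ (hO a) hE (by linarith)
        rw [div_mul_eq_mul_div, le_div_iff₀ (by positivity)]
        calc ((A0s q (W 0) a).card : ℝ) * n₀ ^ 3 = n₀ ^ 3 * ((A0s q (W 0) a).card : ℝ) :=
              mul_comm _ _
          _ ≤ _ := t1
          _ = 96 * G₀ ^ 3 * q ^ 2 * G₁ * ∑ b : ZMod q, ((A1s q (W 1) a b).card : ℝ) := by
              ring)
    refine le_trans s1 ?_
    have : (q : ℝ) * (96 * G₀ ^ 3 * q ^ 2 * G₁ / n₀ ^ 3) = 96 * (G₀ ^ 3 * G₁ * (q / n₀) ^ 3) := by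
      rw [div_pow]
      ring
    rw [this]
    have h0 : 0 ≤ G₀ ^ 3 * G₁ * (q / n₀) ^ 3 * volume.real (W 1) := by positivity
    nlinarith

end Pool.Agent.H42.CLV
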